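import Pool.Agent.H570R2.Modp.Stubs

/-!
# The token level: the coefficient of the product of all tokens is the number of satisfying
assignments
-/

namespace Pool.Agent.H584R2.Modp.TKx

open Pool.Agent.NPC.Cnt Pool.Agent.H549R2.PM Pool.Agent.H570R2.Mono MvPolynomial

/-- polynomials all of whose monomials contain exactly one variable of each pair of tokens -/
noncomputable def W (I : Finset ℕ) : Submodule ℤ (MvPolynomial ℕ ℤ) :=
  Submodule.span ℤ (Set.range fun s : ℕ → Bool => ∏ e ∈ I, X (2 * e + (s e).toNat))

theorem W_mul {I J : Finset ℕ} (h : Disjoint I J) {p q : MvPolynomial ℕ ℤ} (hp : p ∈ W I)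
    (hq : q ∈ W J) : p * q ∈ W (I ∪ J) := by
  have h1 : p * q ∈ W I * W J := Submodule.mul_mem_mul hp hq
  unfold W at h1
  rw [Submodule.span_mul_span] at h1
  refine Submodule.span_le.2 ?_ h1
  rintro _ ⟨_, ⟨s, rfl⟩, _, ⟨s', rfl⟩, rfl⟩
  refine Submodule.subset_span ⟨fun e => if e ∈ I then s e else s' e, ?_⟩
  simp only
  rw [Finset.prod_union h]
  congr 1
  · refine Finset.prod_congr rfl fun e he => ?_
    rw [if_pos he]
  · refine Finset.prod_congr rfl fun e he => ?_
    rw [if_neg (Finset.disjoint_right.1 h he)]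

theorem W_single (e : ℕ) (b : Bool) : (X (2 * e + b.toNat) : MvPolynomial ℕ ℤ) ∈ W {e} := by
  refine Submodule.subset_span ⟨fun _ => b, ?_⟩
  simp

theorem W_one : (1 : MvPolynomial ℕ ℤ) ∈ W ∅ := by
  refine Submodule.subset_span ⟨fun _ => true, ?_⟩
  simp

theorem W_range (a n : ℕ) (f : ℕ → MvPolynomial ℕ ℤ) (h : ∀ i < n, f i ∈ W {a + i}) :
    ((List.range n).map f).prod ∈ W (Finset.Ico a (a + n)) := by
  induction n with
  | zero => simpa using W_one
  | succ n ih =>
    rw [List.range_succ, List.map_append, List.prod_append]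
    have h1 := ih (fun i hi => h i (by omega))
    have h2 := h n (by omega)
    have h3 : Finset.Ico a (a + (n + 1)) = Finset.Ico a (a + n) ∪ {a + n} := by
      ext x; simp only [Finset.mem_Ico, Finset.mem_union, Finset.mem_singleton]; omega
    rw [h3]
    have h4 : (List.map f [n]).prod = f n := by simp
    rw [h4]
    refine W_mul ?_ h1 h2
    rw [Finset.disjoint_left]
    intro x hx hx2
    rw [Finset.mem_singleton] at hx2
    rw [Finset.mem_Ico] at hx
    omega

/-- the point of a choice of tokens -/
def pt (σ : ℕ → Bool) (j : ℕ) : ℤ := if j % 2 = (σ (j / 2)).toNat then 1 else 0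

theorem pt_eq (σ : ℕ → Bool) (e : ℕ) (b : Bool) :
    pt σ (2 * e + b.toNat) = if b = σ e then 1 else 0 := by
  have h1 : (2 * e + b.toNat) / 2 = e := by cases b <;> simp <;> omega
  have h2 : (2 * e + b.toNat) % 2 = b.toNat := by cases b <;> simp
  rw [pt, h1, h2]
  cases b <;> cases σ e <;> simp

/-- the monomial of a choice of tokens -/
noncomputable def mon (I : Finset ℕ) (σ : ℕ → Bool) : ℕ →₀ ℕ :=
  ∑ e ∈ I, Finsupp.single (2 * e + (σ e).toNat) 1

theorem prod_X_eq (I : Finset ℕ) (g : ℕ → ℕ) :
    (∏ e ∈ I, X (g e) : MvPolynomial ℕ ℤ) = monomial (∑ e ∈ I, Finsupp.single (g e) 1) 1 := by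
  rw [monomial_sum_one]
  rfl

theorem mon_apply (I : Finset ℕ) (σ : ℕ → Bool) (e : ℕ) (b : Bool) :
    mon I σ (2 * e + b.toNat) = if e ∈ I ∧ b = σ e then 1 else 0 := by
  rw [mon, Finsupp.finsetSum_apply]
  have h : ∀ e' ∈ I, (Finsupp.single (2 * e' + (σ e').toNat) 1 : ℕ →₀ ℕ) (2 * e + b.toNat) =
      if e' = e then (if b = σ e then 1 else 0) else 0 := by
    intro e' _
    rw [Finsupp.single_apply]
    by_cases he : e' = e
    · subst he
      rw [if_pos rfl]
      cases b <;> cases σ e' <;> simp
    · rw [if_neg he, if_neg]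
      intro h
      apply he
      cases b <;> cases h' : σ e' <;> simp [h'] at h <;> omega
  rw [Finset.sum_congr rfl h, Finset.sum_ite_eq']
  by_cases h1 : e ∈ I
  · simp [h1]
  · simp [h1]

theorem coeff_W (I : Finset ℕ) (σ : ℕ → Bool) {p : MvPolynomial ℕ ℤ} (hp : p ∈ W I) :
    coeff (mon I σ) p = eval (pt σ) p := by
  unfold W at hp
  induction hp using Submodule.span_induction with
  | mem x hx =>
    obtain ⟨s, rfl⟩ := hx
    simp only
    have h1 : eval (pt σ) (∏ e ∈ I, X (2 * e + (s e).toNat) : MvPolynomial ℕ ℤ) =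
        ∏ e ∈ I, if s e = σ e then (1 : ℤ) else 0 := by
      rw [map_prod]
      refine Finset.prod_congr rfl fun e _ => ?_
      rw [eval_X, pt_eq]
    rw [h1, prod_X_eq, coeff_monomial, Finset.prod_ite_zero]
    simp only [Finset.prod_const_one]
    refine if_congr ?_ rfl rfl
    change mon I s = mon I σ ↔ _
    constructor
    · intro h e he
      have h2 := DFunLike.congr_fun h (2 * e + (s e).toNat)
      rw [mon_apply, mon_apply, if_pos ⟨he, rfl⟩] at h2
      by_contra h3
      rw [if_neg (fun h4 => h3 h4.2)] at h2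
      exact absurd h2 one_ne_zero
    · intro h
      refine Finset.sum_congr rfl fun e he => ?_
      rw [h e he]
  | zero => simp
  | add x y _ _ hx hy => rw [coeff_add, map_add, hx, hy]
  | smul a x _ hx =>
    rw [coeff_smul, hx, smul_eq_C_mul, map_mul, eval_C, smul_eq_mul]

theorem lin_one (a : ℕ) : Pool.Agent.H570R2.Mono.lin [a] = X a := by
  simp [Pool.Agent.H570R2.Mono.lin]

theorem lin_two (a b : ℕ) : Pool.Agent.H570R2.Mono.lin [a, b] = X a + X b := by
  simp [Pool.Agent.H570R2.Mono.lin]

theorem startC_succ (φ : CNF ℕ) (k : ℕ) (hk : k < φ.length) :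
    startC φ (k + 1) = startC φ k + (φ.getD k []).length := by
  rw [startC, startC, List.take_succ_eq_append_getElem hk, List.flatten_append,
    List.length_append, List.getD_eq_getElem _ _ hk]
  simp

theorem startC_all (φ : CNF ℕ) : startC φ φ.length = nL φ := by
  rw [startC, List.take_length, nL]

theorem litAt_eq (φ : CNF ℕ) (k i : ℕ) (hk : k < φ.length) (hi : i < (φ.getD k []).length) :
    litAt φ (startC φ k + i) = (φ.getD k []).getD i (false, 0) := by
  have h1 : φ.flatten = (φ.take k).flatten ++ ((φ.getD k []) ++ (φ.drop (k + 1)).flatten) := by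
    conv_lhs => rw [← List.take_append_drop k φ]
    rw [List.flatten_append]
    congr 1
    rw [List.drop_eq_getElem_cons hk, List.flatten_cons, List.getD_eq_getElem _ _ hk]
  rw [litAt, h1, startC, List.getD_append_right _ _ _ _ (by omega), Nat.add_sub_cancel_left,
    List.getD_append _ _ _ _ hi]

theorem blockV_clause (φ : CNF ℕ) (k : ℕ) :
    blockV (clauseBlk φ k) =
      ((List.range (φ.getD k []).length).map
        (fun i => X (2 * (startC φ k + i)) + X (2 * (startC φ k + i) + 1))).prod -
      ((List.range (φ.getD k []).length).map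
        (fun i => X (2 * (startC φ k + i) + (litAt φ (startC φ k + i)).1.toNat))).prod := by
  rw [blockV, clauseBlk, List.map_map, List.map_map]
  have h1 : ((fun ab : List ℕ × List ℕ => Pool.Agent.H570R2.Mono.lin ab.1) ∘ fun i => litPair φ (startC φ k + i)) =
      fun i => X (2 * (startC φ k + i)) + X (2 * (startC φ k + i) + 1) := by
    funext i
    simp only [Function.comp_apply, litPair]
    rw [lin_two]
  have h2 : ((fun ab : List ℕ × List ℕ => Pool.Agent.H570R2.Mono.lin ab.2) ∘ fun i => litPair φ (startC φ k + i)) =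
      fun i => X (2 * (startC φ k + i) + (litAt φ (startC φ k + i)).1.toNat) := by
    funext i
    simp only [Function.comp_apply, litPair]
    rw [lin_one]
    cases (litAt φ (startC φ k + i)).1 <;> rfl
  rw [h1, h2]
  simp only [sgB, cond_false, map_neg, map_one]
  ring

theorem clause_W (φ : CNF ℕ) (k : ℕ) (hk : k < φ.length) :
    blockV (clauseBlk φ k) ∈ W (Finset.Ico (startC φ k) (startC φ (k + 1))) := by
  rw [blockV_clause, startC_succ φ k hk]
  refine Submodule.sub_mem _ (W_range _ _ _ fun i _ => ?_) (W_range _ _ _ fun i _ => ?_)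
  · exact Submodule.add_mem _ (W_single _ false) (W_single _ true)
  · exact W_single _ _

theorem clauses_W (φ : CNF ℕ) (m : ℕ) (hm : m ≤ φ.length) :
    ((List.range m).map (fun k => blockV (clauseBlk φ k))).prod ∈
      W (Finset.range (startC φ m)) := by
  induction m with
  | zero => simpa [startC] using W_one
  | succ m ih =>
    rw [List.range_succ, List.map_append, List.prod_append]
    have h1 := ih (by omega)
    have h2 := clause_W φ m (by omega)
    have h5 := startC_succ φ m (by omega)
    have h3 : Finset.range (startC φ (m + 1)) =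
        Finset.range (startC φ m) ∪ Finset.Ico (startC φ m) (startC φ (m + 1)) := by
      ext x; simp only [Finset.mem_Ico, Finset.mem_union, Finset.mem_range]; omega
    rw [h3]
    have h4 : (List.map (fun k => blockV (clauseBlk φ k)) [m]).prod = blockV (clauseBlk φ m) := by
      simp
    rw [h4]
    refine W_mul ?_ h1 h2
    rw [Finset.disjoint_left]
    intro x hx hx2
    rw [Finset.mem_range] at hx
    rw [Finset.mem_Ico] at hx2
    omega

theorem list_prod_ite {α : Type} (l : List α) (p : α → Prop) [DecidablePred p] :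
    (l.map (fun x => if p x then (1 : ℤ) else 0)).prod = if ∀ x ∈ l, p x then 1 else 0 := by
  induction l with
  | nil => simp
  | cons a l ih =>
    rw [List.map_cons, List.prod_cons, ih]
    by_cases h : p a
    · simp [h]
    · simp [h]

theorem eval_clause (φ : CNF ℕ) (S : Finset ℕ) (k : ℕ) (hk : k < φ.length) :
    eval (pt fun e => !decide ((litAt φ e).2 ∈ S)) (blockV (clauseBlk φ k)) =
      if ∃ l ∈ φ.getD k [], l.1 = decide (l.2 ∈ S) then 1 else 0 := by
  rw [blockV_clause, map_sub, map_list_prod, map_list_prod, List.map_map, List.map_map]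
  have h1 : (eval (pt fun e => !decide ((litAt φ e).2 ∈ S))) ∘
      (fun i => (X (2 * (startC φ k + i)) + X (2 * (startC φ k + i) + 1) : MvPolynomial ℕ ℤ)) =
      fun _ => 1 := by
    funext i
    have ha := pt_eq (fun e => !decide ((litAt φ e).2 ∈ S)) (startC φ k + i) false
    have hb := pt_eq (fun e => !decide ((litAt φ e).2 ∈ S)) (startC φ k + i) true
    simp only [Bool.toNat_false, Bool.toNat_true, add_zero] at ha hb
    rw [Function.comp_apply, map_add, eval_X, eval_X, ha, hb]
    by_cases h : (litAt φ (startC φ k + i)).2 ∈ S <;> simp [h]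
  have h2 : (eval (pt fun e => !decide ((litAt φ e).2 ∈ S))) ∘
      (fun i => (X (2 * (startC φ k + i) + (litAt φ (startC φ k + i)).1.toNat) :
        MvPolynomial ℕ ℤ)) =
      fun i => if (litAt φ (startC φ k + i)).1 =
        !decide ((litAt φ (startC φ k + i)).2 ∈ S) then 1 else 0 := by
    funext i
    rw [Function.comp_apply, eval_X, pt_eq]
  rw [h1, h2, list_prod_ite]
  have h3 : ((List.range (φ.getD k []).length).map (fun _ => (1 : ℤ))).prod = 1 := by simp
  rw [h3]
  have h4 : (∀ x ∈ List.range (φ.getD k []).length, (litAt φ (startC φ k + x)).1 =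
      !decide ((litAt φ (startC φ k + x)).2 ∈ S)) ↔
      ¬ ∃ l ∈ φ.getD k [], l.1 = decide (l.2 ∈ S) := by
    constructor
    · rintro h ⟨l, hl, hl2⟩
      obtain ⟨i, hi, rfl⟩ := List.mem_iff_getElem.1 hl
      have h5 := h i (List.mem_range.2 hi)
      rw [litAt_eq φ k i hk hi, List.getD_eq_getElem _ _ hi] at h5
      rw [hl2] at h5
      simp at h5
    · intro h x hx
      rw [List.mem_range] at hx
      rw [litAt_eq φ k x hk hx, List.getD_eq_getElem _ _ hx]
      by_contra h6
      apply h
      refine ⟨_, List.getElem_mem hx, ?_⟩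
      revert h6
      cases ((φ.getD k [])[x]).1 <;> cases decide (((φ.getD k [])[x]).2 ∈ S) <;> simp
  by_cases h5 : ∃ l ∈ φ.getD k [], l.1 = decide (l.2 ∈ S)
  · rw [if_pos h5, if_neg (fun h6 => h4.1 h6 h5)]
    ring
  · rw [if_neg h5, if_pos (h4.2 h5)]
    ring

theorem coeff_clauses (φ : CNF ℕ) (S : Finset ℕ) :
    coeff (mon (Finset.range (nL φ)) (fun e => !decide ((litAt φ e).2 ∈ S)))
      ((List.range φ.length).map (fun k => blockV (clauseBlk φ k))).prod =
      if SatBy S φ then 1 else 0 := by
  have h := clauses_W φ φ.length le_rfl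
  rw [startC_all] at h
  rw [coeff_W _ _ h, map_list_prod, List.map_map]
  have h1 : (List.range φ.length).map ((eval (pt fun e => !decide ((litAt φ e).2 ∈ S))) ∘
      (fun k => blockV (clauseBlk φ k))) = (List.range φ.length).map
      (fun k => if ∃ l ∈ φ.getD k [], l.1 = decide (l.2 ∈ S) then (1 : ℤ) else 0) := by
    refine List.map_congr_left fun k hk => ?_
    rw [List.mem_range] at hk
    rw [Function.comp_apply, eval_clause φ S k hk]
  rw [h1, list_prod_ite]
  refine if_congr ?_ rfl rfl
  rw [SatBy]
  constructor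
  · intro h2 c hc
    obtain ⟨k, hk, rfl⟩ := List.mem_iff_getElem.1 hc
    have h3 := h2 k (List.mem_range.2 hk)
    rw [List.getD_eq_getElem _ _ hk] at h3
    exact h3
  · intro h2 k hk
    rw [List.mem_range] at hk
    rw [List.getD_eq_getElem _ _ hk]
    exact h2 _ (List.getElem_mem hk)

/-! ### The variable blocks -/

theorem blockV_var (φ : CNF ℕ) (v : ℕ) :
    blockV (varBlk φ v) =
      (∏ e ∈ (Finset.range (nL φ)).filter (fun e => (litAt φ e).2 = v), X (2 * e + 1)) +
      ∏ e ∈ (Finset.range (nL φ)).filter (fun e => (litAt φ e).2 = v), X (2 * e) := by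
  rw [blockV, varBlk, List.map_map, List.map_map]
  have h1 : ((fun ab : List ℕ × List ℕ => Pool.Agent.H570R2.Mono.lin ab.1) ∘ fun e : ℕ => ([2 * e], [2 * e + 1])) =
      fun e => X (2 * e) := by
    funext i
    simp only [Function.comp_apply]
    rw [lin_one]
  have h2 : ((fun ab : List ℕ × List ℕ => Pool.Agent.H570R2.Mono.lin ab.2) ∘ fun e : ℕ => ([2 * e], [2 * e + 1])) =
      fun e => X (2 * e + 1) := by
    funext i
    simp only [Function.comp_apply]
    rw [lin_one]
  have h3 : ∀ f : ℕ → MvPolynomial ℕ ℤ,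
      (((List.range (nL φ)).filter (fun e => decide ((litAt φ e).2 = v))).map f).prod =
      ∏ e ∈ (Finset.range (nL φ)).filter (fun e => (litAt φ e).2 = v), f e := by
    intro f
    rw [← List.prod_toFinset f (List.nodup_range.filter _)]
    refine Finset.prod_congr ?_ fun _ _ => rfl
    ext x
    simp
  rw [h1, h2, h3, h3]
  simp only [sgB, cond_true, map_one]
  ring

theorem vars_prod (φ : CNF ℕ) :
    ((vsL φ).map (fun v => blockV (varBlk φ v))).prod =
      ∑ S ∈ (vars φ).powerset, ∏ e ∈ Finset.range (nL φ),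
        (X (2 * e + (decide ((litAt φ e).2 ∈ S)).toNat) : MvPolynomial ℕ ℤ) := by
  have h1 : (vsL φ).toFinset = vars φ := by
    ext x
    rw [List.mem_toFinset, mem_vsL]
  have hnd : (vsL φ).Nodup := dd_nodup _
  rw [← List.prod_toFinset _ hnd, h1]
  simp only [blockV_var]
  rw [Finset.prod_add]
  refine Finset.sum_congr rfl fun S hS => ?_
  rw [Finset.mem_powerset] at hS
  have h2 : ∀ e ∈ Finset.range (nL φ), (litAt φ e).2 ∈ vars φ := by
    intro e he
    rw [Finset.mem_range, nL] at he
    rw [litAt, List.getD_eq_getElem _ _ he, Pool.Agent.NPC.Cnt.vars, List.mem_toFinset]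
    exact List.mem_map_of_mem (List.getElem_mem he)
  rw [← Finset.prod_fiberwise_of_maps_to h2]
  rw [← Finset.prod_sdiff hS, mul_comm]
  congr 1
  · refine Finset.prod_congr rfl fun v hv => ?_
    refine Finset.prod_congr rfl fun e he => ?_
    rw [Finset.mem_filter] at he
    rw [Finset.mem_sdiff] at hv
    rw [he.2, decide_eq_false hv.2]
    rfl
  · refine Finset.prod_congr rfl fun v hv => ?_
    refine Finset.prod_congr rfl fun e he => ?_
    rw [Finset.mem_filter] at he
    rw [he.2, decide_eq_true hv]
    rfl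

theorem fullM_two (L : ℕ) (σ : ℕ → Bool) :
    fullM (2 * L) = mon (Finset.range L) (fun e => !σ e) + mon (Finset.range L) σ := by
  rw [mon, mon, ← Finset.sum_add_distrib, fullM]
  induction L with
  | zero => simp
  | succ L ih =>
    rw [Finset.sum_range_succ, ← ih, show 2 * (L + 1) = 2 * L + 1 + 1 by ring,
      Finset.sum_range_succ, Finset.sum_range_succ, add_assoc]
    congr 1
    cases σ L
    · simp only [Bool.not_false, Bool.toNat_true, Bool.toNat_false, add_zero]
      rw [add_comm]
    · simp only [Bool.not_true, Bool.toNat_true, Bool.toNat_false, add_zero]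

end Pool.Agent.H584R2.Modp.TKx

namespace Pool.Agent.H584R2.Modp

open Pool.Agent.NPC.Cnt Pool.Agent.H549R2.PM Pool.Agent.H570R2.Mono MvPolynomial TKx

theorem stub_tok : StubTok := by
  intro φ
  rw [blks, List.map_append, List.prod_append, List.map_map, List.map_map]
  have h1 : ((vsL φ).map (blockV ∘ varBlk φ)).prod =
      ((vsL φ).map (fun v => blockV (varBlk φ v))).prod := rfl
  have h2 : ((List.range φ.length).map (blockV ∘ clauseBlk φ)).prod =
      ((List.range φ.length).map (fun k => blockV (clauseBlk φ k))).prod := rfl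
  rw [h1, h2, vars_prod, Finset.sum_mul, coeff_sum]
  have h3 : ∀ S ∈ (vars φ).powerset, coeff (fullM (2 * nL φ))
      ((∏ e ∈ Finset.range (nL φ),
        (X (2 * e + (decide ((litAt φ e).2 ∈ S)).toNat) : MvPolynomial ℕ ℤ)) *
        ((List.range φ.length).map (fun k => blockV (clauseBlk φ k))).prod) =
      if SatBy S φ then 1 else 0 := by
    intro S _
    rw [prod_X_eq, fullM_two (nL φ) (fun e => decide ((litAt φ e).2 ∈ S))]
    have h4 := coeff_monomial_mul
      (mon (Finset.range (nL φ)) (fun e => !decide ((litAt φ e).2 ∈ S)))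
      (mon (Finset.range (nL φ)) (fun e => decide ((litAt φ e).2 ∈ S))) (1 : ℤ)
      ((List.range φ.length).map (fun k => blockV (clauseBlk φ k))).prod
    rw [coeff_clauses, one_mul] at h4
    exact (congrArg (fun m => coeff m _) (add_comm _ _)).trans h4
  rw [Finset.sum_congr rfl h3, Finset.sum_ite, Finset.sum_const_zero, add_zero, Finset.sum_const,
    satCount]
  simp

end Pool.Agent.H584R2.Modp
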